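import Mathlib

/-!
# MP_e3e024_co: the clique number of the fifth xor-power of Kneser graphs has cubic order.
-/

namespace Pool.Agent.Results.MP_e3e024_co.CubicLowerBound

open Finset

/-- The `ℓ`-th xor-power of the Kneser graph `KG(n,k)`: vertices are the `ℓ`-tuples of
`k`-subsets of an `n`-set, and two distinct tuples are adjacent iff they are disjoint in an
odd number of coordinates. -/
def xorPower (ℓ n k : ℕ) :
    SimpleGraph (Fin ℓ → {S : Finset (Fin n) // S.card = k}) where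
  Adj X Y := X ≠ Y ∧ Odd (univ.filter (fun i => Disjoint (X i).1 (Y i).1)).card
  symm := ⟨by
    rintro X Y ⟨h1, h2⟩
    refine ⟨h1.symm, ?_⟩
    have : (univ.filter (fun i => Disjoint (Y i).1 (X i).1))
        = (univ.filter (fun i => Disjoint (X i).1 (Y i).1)) := by
      ext i; simp [disjoint_comm]
    rw [this]; exact h2⟩
  loopless := ⟨fun X h => h.1 rfl⟩

/-- `f ℓ n k` is the clique number of the `ℓ`-th xor-power of `KG(n,k)`. -/
noncomputable def f (ℓ n k : ℕ) : ℕ := (xorPower ℓ n k).cliqueNum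

/-- The statement of Q1: for every `ℓ ≥ 1` there is `k₀` such that for all `k ≥ k₀`,
`f ℓ n k = Θ(n ^ ⌊log₂ (ℓ+1)⌋)` as `n → ∞`. -/
def Q1 : Prop :=
  ∀ ℓ : ℕ, 1 ≤ ℓ → ∃ k₀ : ℕ, ∀ k : ℕ, k₀ ≤ k →
    (fun n : ℕ => (f ℓ n k : ℝ)) =Θ[Filter.atTop] (fun n : ℕ => (n : ℝ) ^ (Nat.log 2 (ℓ + 1)))

/-- the elementary abelian 2-group of order `2^s` -/
abbrev A (s : ℕ) := Fin s → ZMod 2

/-- the parameter space -/
abbrev P (s : ℕ) := A s × A s × A s

/-- the linear forms used in coordinate `i`, with repetitions -/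
def form {s : ℕ} (i : Fin 5) (j : ℕ) (p : P s) : A s :=
  match i, j with
  | 0, _ => p.1 + p.2.2
  | 1, 0 => p.1 + p.2.1 + p.2.2
  | 1, _ => p.2.1
  | 2, 0 => p.1
  | 2, 1 => p.1 + p.2.1
  | 2, _ => p.2.1 + p.2.2
  | 3, 0 => p.1
  | 3, 1 => p.1 + p.2.2
  | 3, _ => p.2.2
  | 4, 0 => p.1 + p.2.1
  | 4, 1 => p.1 + p.2.1 + p.2.2
  | 4, 2 => p.2.1
  | 4, 3 => p.2.1 + p.2.2
  | 4, _ => p.2.2

/-- the sets used in the construction -/
def Y {s n k : ℕ} (e : Fin k × A s ↪ Fin n) (i : Fin 5) (p : P s) : Finset (Fin n) :=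
  (univ : Finset (Fin k)).image (fun j => e (j, form i j.val p))

theorem card_Y {s n k : ℕ} (e : Fin k × A s ↪ Fin n) (i : Fin 5) (p : P s) :
    (Y e i p).card = k := by
  unfold Y
  rw [Finset.card_image_of_injective]
  · simp
  · intro a b h
    exact (Prod.mk.inj (e.injective h)).1

theorem disj_Y {s n k : ℕ} (e : Fin k × A s ↪ Fin n) (i : Fin 5) (p q : P s) :
    Disjoint (Y e i p) (Y e i q) ↔ ∀ j : Fin k, form i j.val p ≠ form i j.val q := by
  rw [Finset.disjoint_left]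
  constructor
  · intro h j hj
    have h1 : e (j, form i j.val p) ∈ Y e i p :=
      Finset.mem_image_of_mem _ (mem_univ j)
    have h2 : e (j, form i j.val q) ∈ Y e i q :=
      Finset.mem_image_of_mem _ (mem_univ j)
    rw [← hj] at h2
    exact h h1 h2
  · intro h x hx hy
    simp only [Y, mem_image, mem_univ, true_and] at hx hy
    obtain ⟨a, rfl⟩ := hx
    obtain ⟨b, hb⟩ := hy
    have := e.injective hb
    have h1 := (Prod.mk.inj this).1
    have h2 := (Prod.mk.inj this).2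
    subst h1
    exact h b h2.symm

theorem key : ∀ z0 z1 z2 z3 z4 z5 z6 : Bool,
    ((!(z0 && z1) || z3) && (!(z0 && z3) || z1) && (!(z1 && z3) || z0) &&
    (!(z0 && z2) || z4) && (!(z0 && z4) || z2) && (!(z2 && z4) || z0) &&
    (!(z1 && z2) || z5) && (!(z1 && z5) || z2) && (!(z2 && z5) || z1) &&
    (!(z0 && z5) || z6) && (!(z0 && z6) || z5) && (!(z5 && z6) || z0) &&
    (!(z1 && z4) || z6) && (!(z1 && z6) || z4) && (!(z4 && z6) || z1) &&
    (!(z2 && z3) || z6) && (!(z2 && z6) || z3) && (!(z3 && z6) || z2) &&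
    (!(z3 && z4) || z5) && (!(z3 && z5) || z4) && (!(z4 && z5) || z3) &&
    !(z0 && z1 && z2)) = true →
    ((if (!z4) = true then 1 else 0) + (if (!z6 && !z1) = true then 1 else 0) +
      (if (!z0 && !z3 && !z5) = true then 1 else 0) +
      (if (!z0 && !z4 && !z2) = true then 1 else 0) +
      (if (!z3 && !z6 && !z1 && !z5 && !z2) = true then 1 else 0) : ℕ) % 2 = 1 := by
  decide


theorem imp_bool {a b c : Bool} (h : a = true → b = true → c = true) :
    (!(a && b) || c) = true := by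
  revert h; revert a b c; decide

theorem form_ge {s : ℕ} (i : Fin 5) (j : ℕ) (p : P s) : form i (j + 4) p = form i 4 p := by
  fin_cases i <;> rfl

theorem forall_form {s k : ℕ} (hk : 5 ≤ k) (i : Fin 5) (p q : P s) :
    (∀ j : Fin k, form i j.val p ≠ form i j.val q) ↔
      (form i 0 p ≠ form i 0 q ∧ form i 1 p ≠ form i 1 q ∧ form i 2 p ≠ form i 2 q ∧
        form i 3 p ≠ form i 3 q ∧ form i 4 p ≠ form i 4 q) := by
  constructor
  · intro h
    exact ⟨h ⟨0, by omega⟩, h ⟨1, by omega⟩, h ⟨2, by omega⟩, h ⟨3, by omega⟩,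
      h ⟨4, by omega⟩⟩
  · rintro ⟨h0, h1, h2, h3, h4⟩ ⟨j, hj⟩
    show form i j p ≠ form i j q
    rcases j with _ | _ | _ | _ | j
    · exact h0
    · exact h1
    · exact h2
    · exact h3
    · rw [form_ge i j p, form_ge i j q]; exact h4

theorem count_odd {s n k : ℕ} (hk : 5 ≤ k) (e : Fin k × A s ↪ Fin n) (p q : P s)
    (hne : p ≠ q) :
    Odd (univ.filter (fun i => Disjoint (Y e i p) (Y e i q))).card := by
  rw [Finset.card_filter, Fin.sum_univ_five, Nat.odd_iff]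
  simp only [disj_Y, forall_form hk]
  set z0 : Bool := decide (p.1 = q.1) with hz0
  set z1 : Bool := decide (p.2.1 = q.2.1) with hz1
  set z2 : Bool := decide (p.2.2 = q.2.2) with hz2
  set z3 : Bool := decide (p.1 + p.2.1 = q.1 + q.2.1) with hz3
  set z4 : Bool := decide (p.1 + p.2.2 = q.1 + q.2.2) with hz4
  set z5 : Bool := decide (p.2.1 + p.2.2 = q.2.1 + q.2.2) with hz5
  set z6 : Bool := decide (p.1 + p.2.1 + p.2.2 = q.1 + q.2.1 + q.2.2) with hz6
  have e0 : (form 0 0 p ≠ form 0 0 q ∧ form 0 1 p ≠ form 0 1 q ∧ form 0 2 p ≠ form 0 2 q ∧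
        form 0 3 p ≠ form 0 3 q ∧ form 0 4 p ≠ form 0 4 q) ↔ (!z4) = true := by
    simp only [form, hz4]
    simp
  have e1 : (form 1 0 p ≠ form 1 0 q ∧ form 1 1 p ≠ form 1 1 q ∧ form 1 2 p ≠ form 1 2 q ∧
        form 1 3 p ≠ form 1 3 q ∧ form 1 4 p ≠ form 1 4 q) ↔ (!z6 && !z1) = true := by
    simp only [form, hz6, hz1]
    simp
  have e2 : (form 2 0 p ≠ form 2 0 q ∧ form 2 1 p ≠ form 2 1 q ∧ form 2 2 p ≠ form 2 2 q ∧
        form 2 3 p ≠ form 2 3 q ∧ form 2 4 p ≠ form 2 4 q) ↔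
        (!z0 && !z3 && !z5) = true := by
    simp only [form, hz0, hz3, hz5]
    simp [and_assoc]
  have e3 : (form 3 0 p ≠ form 3 0 q ∧ form 3 1 p ≠ form 3 1 q ∧ form 3 2 p ≠ form 3 2 q ∧
        form 3 3 p ≠ form 3 3 q ∧ form 3 4 p ≠ form 3 4 q) ↔
        (!z0 && !z4 && !z2) = true := by
    simp only [form, hz0, hz4, hz2]
    simp [and_assoc]
  have e4 : (form 4 0 p ≠ form 4 0 q ∧ form 4 1 p ≠ form 4 1 q ∧ form 4 2 p ≠ form 4 2 q ∧
        form 4 3 p ≠ form 4 3 q ∧ form 4 4 p ≠ form 4 4 q) ↔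
        (!z3 && !z6 && !z1 && !z5 && !z2) = true := by
    simp only [form, hz3, hz6, hz1, hz5, hz2]
    simp [and_assoc]
  simp only [e0, e1, e2, e3, e4]
  apply key z0 z1 z2 z3 z4 z5 z6
  simp only [Bool.and_eq_true]
  have hlast : (!(z0 && z1 && z2)) = true := by
    rw [Bool.not_eq_true', Bool.eq_false_iff]
    intro h
    simp only [Bool.and_eq_true, hz0, hz1, hz2, decide_eq_true_eq] at h
    exact hne (Prod.ext h.1.1 (Prod.ext h.1.2 h.2))
  refine ⟨?_, hlast⟩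
  clear hlast e0 e1 e2 e3 e4 hne
  repeat' apply And.intro
  all_goals
    apply imp_bool
    intro h1 h2
    simp only [hz0, hz1, hz2, hz3, hz4, hz5, hz6, decide_eq_true_eq] at h1 h2 ⊢
    funext i
    have h1i := congrFun h1 i
    have h2i := congrFun h2 i
    simp only [Pi.add_apply] at h1i h2i ⊢
    revert h1i h2i
    generalize p.1 i = a
    generalize p.2.1 i = b
    generalize p.2.2 i = c
    generalize q.1 i = a'
    generalize q.2.1 i = b'
    generalize q.2.2 i = c'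
    revert a b c a' b' c'
    decide

/-- the tuple attached to a parameter -/
def Phi {s n k : ℕ} (e : Fin k × A s ↪ Fin n) (p : P s) :
    Fin 5 → {S : Finset (Fin n) // S.card = k} := fun i => ⟨Y e i p, card_Y e i p⟩

theorem Phi_inj {s n k : ℕ} (hk : 5 ≤ k) (e : Fin k × A s ↪ Fin n) :
    Function.Injective (Phi e) := by
  intro p q h
  by_contra hne
  have h1 := count_odd hk e p q hne
  have h2 : ∀ i, Y e i q = Y e i p := fun i => by
    have := congrFun h i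
    exact (Subtype.mk.inj this).symm
  simp only [h2, disjoint_self, Finset.bot_eq_empty] at h1
  have h3 : (univ.filter (fun i : Fin 5 => Y e i p = ∅)) = ∅ := by
    apply Finset.filter_false_of_mem
    intro i _ hi
    have := card_Y e i p
    rw [hi, Finset.card_empty] at this
    omega
  rw [h3] at h1
  simp at h1

theorem clique_bound {s n k : ℕ} (hk : 5 ≤ k) (h : k * 2 ^ s ≤ n) :
    (2 ^ s) ^ 3 ≤ f 5 n k := by
  classical
  have hc : Fintype.card (Fin k × A s) ≤ Fintype.card (Fin n) := by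
    simpa [ZMod.card] using h
  obtain ⟨e⟩ := Function.Embedding.nonempty_of_card_le hc
  have hcl : (xorPower 5 n k).IsClique
      ((univ.image (Phi e) : Finset _) : Set (Fin 5 → {S : Finset (Fin n) // S.card = k})) := by
    intro X hX X' hX' hne
    simp only [coe_image, coe_univ, Set.image_univ, Set.mem_range] at hX hX'
    obtain ⟨p, rfl⟩ := hX
    obtain ⟨q, rfl⟩ := hX'
    refine ⟨hne, ?_⟩
    have hpq : p ≠ q := fun h => hne (by rw [h])
    exact count_odd hk e p q hpq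
  have := SimpleGraph.IsClique.card_le_cliqueNum (tc := hcl)
  rw [Finset.card_image_of_injective _ (Phi_inj hk e)] at this
  have hP : (univ : Finset (P s)).card = (2 ^ s) ^ 3 := by
    simp [ZMod.card]
    ring
  rw [hP] at this
  exact this

theorem cubic {n k : ℕ} (hk : 5 ≤ k) (hn : k ≤ n) : n ^ 3 ≤ 8 * k ^ 3 * f 5 n k := by
  have hk0 : 0 < k := by omega
  have hq : n / k ≠ 0 := by
    have := Nat.div_pos hn hk0
    omega
  set s := Nat.log 2 (n / k) with hs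
  have h1 : 2 ^ s ≤ n / k := Nat.pow_log_le_self 2 hq
  have h2 : n / k < 2 ^ (s + 1) := Nat.lt_pow_succ_log_self (by norm_num) _
  have h3 : k * 2 ^ s ≤ n := by
    calc k * 2 ^ s ≤ k * (n / k) := Nat.mul_le_mul_left _ h1
      _ ≤ n := Nat.mul_div_le n k
  have h4 : n ≤ k * 2 ^ (s + 1) := by
    have : n < k * (n / k + 1) := by
      rw [Nat.mul_comm]
      exact Nat.lt_mul_of_div_lt (Nat.lt_succ_self _) hk0
    calc n ≤ k * (n / k + 1) := this.le
      _ ≤ k * 2 ^ (s + 1) := Nat.mul_le_mul_left _ h2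
  have h5 := clique_bound hk h3
  calc n ^ 3 ≤ (k * 2 ^ (s + 1)) ^ 3 := Nat.pow_le_pow_left h4 3
    _ = 8 * k ^ 3 * (2 ^ s) ^ 3 := by rw [pow_succ]; ring
    _ ≤ 8 * k ^ 3 * f 5 n k := Nat.mul_le_mul_left _ h5

theorem result :
    (∀ k : ℕ, 5 ≤ k → ∀ n : ℕ, k ≤ n → n ^ 3 ≤ 8 * k ^ 3 * f 5 n k) ∧ ¬ Q1 := by
  refine ⟨fun k hk n hn => cubic hk hn, ?_⟩
  intro H
  obtain ⟨k₀, hk₀⟩ := H 5 (by norm_num)
  have hT := hk₀ (max k₀ 5) (le_max_left _ _)
  set k := max k₀ 5 with hkdef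
  have hk : 5 ≤ k := le_max_right _ _
  have hlog : Nat.log 2 (5 + 1) = 2 := by
    rw [Nat.log_eq_iff (Or.inl (by norm_num))]; norm_num
  rw [hlog] at hT
  obtain ⟨C, hC⟩ := hT.1.bound
  rw [Filter.eventually_atTop] at hC
  obtain ⟨N, hN⟩ := hC
  obtain ⟨M, hM⟩ := exists_nat_gt (8 * (k : ℝ) ^ 3 * C)
  set n := max (max N k) (max M 1) with hn
  have hnN : N ≤ n := le_trans (le_max_left _ _) (le_max_left _ _)
  have hnk : k ≤ n := le_trans (le_max_right _ _) (le_max_left _ _)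
  have hnM : M ≤ n := le_trans (le_max_left _ _) (le_max_right _ _)
  have hn1 : 1 ≤ n := le_trans (le_max_right _ _) (le_max_right _ _)
  have h1 := hN n hnN
  rw [Real.norm_of_nonneg (by positivity), Real.norm_of_nonneg (by positivity)] at h1
  have h2 : ((n : ℝ)) ^ 3 ≤ 8 * (k : ℝ) ^ 3 * (f 5 n k : ℝ) := by
    exact_mod_cast cubic hk hnk
  have hn0 : (0 : ℝ) < (n : ℝ) := by exact_mod_cast hn1
  have hk3 : (0 : ℝ) ≤ 8 * (k : ℝ) ^ 3 := by positivity
  have h3 : ((n : ℝ)) ^ 3 ≤ 8 * (k : ℝ) ^ 3 * C * (n : ℝ) ^ 2 := by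
    calc ((n : ℝ)) ^ 3 ≤ 8 * (k : ℝ) ^ 3 * (f 5 n k : ℝ) := h2
      _ ≤ 8 * (k : ℝ) ^ 3 * (C * (n : ℝ) ^ 2) := mul_le_mul_of_nonneg_left h1 hk3
      _ = 8 * (k : ℝ) ^ 3 * C * (n : ℝ) ^ 2 := by ring
  have h4 : (n : ℝ) ≤ 8 * (k : ℝ) ^ 3 * C := by
    have hsq : (0 : ℝ) < (n : ℝ) ^ 2 := by positivity
    have : (n : ℝ) * (n : ℝ) ^ 2 ≤ 8 * (k : ℝ) ^ 3 * C * (n : ℝ) ^ 2 := by
      calc (n : ℝ) * (n : ℝ) ^ 2 = (n : ℝ) ^ 3 := by ring
        _ ≤ _ := h3
    exact le_of_mul_le_mul_right this hsq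
  have h5 : (M : ℝ) ≤ (n : ℝ) := by exact_mod_cast hnM
  linarith

end Pool.Agent.Results.MP_e3e024_co.CubicLowerBound
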